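import Pool.Agent.Helper99.MKV.GoalsA
import Pool.Agent.Helper5.EXC.SF

/-!
# Packet GRK: gradients of the truncated kernels
-/

set_option autoImplicit false

open Finset

namespace Pool.Agent.Helper56.MKV

open Pool.Agent.Helper99.MKV Pool.Agent.Helper99.EXC Pool.Agent.Helper99.ERW
open Pool.Agent.Helper5.EXC (nm_nonneg nm_add_vec_le nm_le_add_vec exists_steps chain_line'
  nm_le_of_close far_of_large)

/-- A function whose unit steps near `y` are at most `B` changes by at most `2 B R` from `y` to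
`y - z`, if the coordinates of `z` are at most `R`. -/
theorem walk_box {H : Site 2 → ℝ} {B R : ℝ} (hB : 0 ≤ B) (hR : 0 ≤ R) (y z : Site 2)
    (hzl : ∀ l, ((z l).natAbs : ℝ) ≤ R)
    (hstep : ∀ (u : Site 2) (g : Dir 2), (∀ i, |((u i - y i : ℤ) : ℝ)| ≤ R) →
      |H (u + vec g) - H u| ≤ B) : |H (y - z) - H y| ≤ 2 * B * R := by
  obtain ⟨c0, e0⟩ := exists_steps (-z 0) 0
  obtain ⟨c1, e1⟩ := exists_steps (-z 1) 1
  have hx : y - z = (y + (-z 0).natAbs • vec (0, c0)) + (-z 1).natAbs • vec (1, c1) := by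
    rw [e0, e1]
    funext i
    fin_cases i <;> simp <;> ring
  have v0 : ∀ (c : Bool) (m : ℕ) (l i : Fin 2),
      |((m • (vec (l, c) : Site 2)) i : ℝ)| ≤ if i = l then (m : ℝ) else 0 := by
    intro c m l i
    by_cases h : i = l
    · subst h
      cases c <;> simp [vec]
    · simp [vec, h]
  have g0 := chain_line' (H := H) (B := B) y (0, c0) (-z 0).natAbs
    (fun m hm => by
      refine hstep _ _ fun i => ?_
      have hmR : (m : ℝ) ≤ R := by
        refine le_trans ?_ (hzl 0)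
        rw [Int.natAbs_neg] at hm
        exact_mod_cast hm.le
      have h1 := v0 c0 m 0 i
      rw [Pi.add_apply, add_sub_cancel_left]
      refine h1.trans ?_
      split_ifs
      · exact hmR
      · positivity)
  have g1 := chain_line' (H := H) (B := B)
    (y + (-z 0).natAbs • vec (0, c0)) (1, c1) (-z 1).natAbs
    (fun m hm => by
      refine hstep _ _ fun i => ?_
      have hmR : (m : ℝ) ≤ R := by
        refine le_trans ?_ (hzl 1)
        rw [Int.natAbs_neg] at hm
        exact_mod_cast hm.le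
      have hnR : (((-z 0).natAbs : ℕ) : ℝ) ≤ R := by
        rw [Int.natAbs_neg]
        exact hzl 0
      have h0 := v0 c0 (-z 0).natAbs 0 i
      have h1 := v0 c1 m 1 i
      rw [Pi.add_apply, Pi.add_apply, add_assoc, add_sub_cancel_left, Int.cast_add]
      refine (abs_add_le _ _).trans ((add_le_add h0 h1).trans ?_)
      fin_cases i
      · simpa using hnR
      · simpa using hmR)
  rw [← hx] at g1
  have n0 : (((-z 0).natAbs : ℕ) : ℝ) ≤ R := by
    rw [Int.natAbs_neg]
    exact hzl 0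
  have n1 : (((-z 1).natAbs : ℕ) : ℝ) ≤ R := by
    rw [Int.natAbs_neg]
    exact hzl 1
  have m0 := mul_le_mul_of_nonneg_left n0 hB
  have m1 := mul_le_mul_of_nonneg_left n1 hB
  have e : H (y - z) - H y = (H (y - z) - H (y + (-z 0).natAbs • vec (0, c0))) +
      (H (y + (-z 0).natAbs • vec (0, c0)) - H y) := by ring
  rw [e]
  refine (abs_add_le _ _).trans ?_
  linarith

theorem nm_neg' (x : Site 2) : nm (-x) = nm x := by
  unfold nm
  simp

theorem nm_sub_comm' (x z : Site 2) : nm (x - z) = nm (z - x) := by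
  rw [← nm_neg', neg_sub]

theorem coord_big {b k : ℕ} {x : Site 2} (hx : x ∉ Bx b (k + 1)) :
    ∃ l, 2 * ((b : ℤ) * 2 ^ k) < |x l| := by
  unfold Bx at hx
  rw [mem_box] at hx
  push Not at hx
  obtain ⟨l, hl⟩ := hx
  refine ⟨l, ?_⟩
  push_cast at hl
  rw [pow_succ] at hl
  linarith

theorem half_nm {b k : ℕ} {x : Site 2} (hx : x ∉ Bx b (k + 1)) :
    (b : ℝ) * 2 ^ k ≤ nm x / 2 := by
  obtain ⟨l, hl⟩ := coord_big hx
  have h1 : (2 : ℝ) * ((b : ℝ) * 2 ^ k) < |(x l : ℝ)| := by
    rw [← Int.cast_abs]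
    exact_mod_cast hl
  have h2 : |(x l : ℝ)| ≤ nm x := by
    unfold nm
    fin_cases l
    · exact le_max_left _ _
    · exact le_max_right _ _
  linarith

theorem notMem_of_big {b k : ℕ} (hb : 1 ≤ b) {x : Site 2} (hx : x ∉ Bx b (k + 1)) (e : Dir 2) :
    x ∉ Bx b k ∧ x + vec e ∉ Bx b k := by
  obtain ⟨l, hl⟩ := coord_big hx
  have hp : (1 : ℤ) ≤ (b : ℤ) * 2 ^ k := by
    have h1 : 1 ≤ b * 2 ^ k := Nat.one_le_iff_ne_zero.2 (by positivity)
    exact_mod_cast h1
  have hv := abs_vec_le e l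
  constructor
  · intro h
    unfold Bx at h
    rw [mem_box] at h
    have := h l
    push_cast at this
    linarith
  · intro h
    unfold Bx at h
    rw [mem_box] at h
    have h1 := h l
    push_cast at h1
    rw [Pi.add_apply] at h1
    have h2 : |x l| ≤ |x l + vec e l| + |vec e l| := by
      have := abs_sub (x l + vec e l) (vec e l)
      rwa [add_sub_cancel_right] at this
    linarith

theorem phi_step (hF : FFP_stmt) {a : ℝ} {φ : Site 2 → ℝ} {κ C0 : ℝ} (hK : Ker a φ κ C0)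
    (k : ℕ) (x : Site 2) (e : Dir 2) :
    |Phi κ φ k (x + vec e) - Phi κ φ k x| ≤ C0 / (1 + nm x) := by
  obtain ⟨-, -, -, -, -, -, -, -, hL, -⟩ := hF
  have h1 : Phi κ φ k (x + vec e) - Phi κ φ k x =
      FF (φ (x + vec e) - κ * k) - FF (φ x - κ * k) := by unfold Phi; ring
  rw [h1]
  refine (hL _ _).trans ?_
  rw [sub_sub_sub_cancel_right]
  exact hK.d1 x e

theorem phi_step2 (hF : FFP_stmt) {a : ℝ} {φ : Site 2 → ℝ} {κ C0 : ℝ} (hK : Ker a φ κ C0)
    (k : ℕ) (x : Site 2) (e : Dir 2) :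
    |Phi κ φ k (x + vec e) - Phi κ φ k x| ≤ 2 * C0 / (2 : ℝ) ^ (-(C0 / κ)) / 2 ^ k := by
  have hC0 : 0 ≤ C0 := zero_le_one.trans hK.cone
  have hc : (0 : ℝ) < (2 : ℝ) ^ (-(C0 / κ)) := Real.rpow_pos_of_pos (by norm_num) _
  have hk2 : (0 : ℝ) < 2 ^ k := by positivity
  have hn := nm_nonneg x
  by_cases h : φ x ≤ κ * k ∧ φ (x + vec e) ≤ κ * k
  · obtain ⟨-, -, -, hF0, -⟩ := hF
    have h1 : Phi κ φ k (x + vec e) - Phi κ φ k x = 0 := by
      unfold Phi
      rw [hF0 _ (by linarith [h.1]), hF0 _ (by linarith [h.2])]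
      ring
    rw [h1, abs_zero]
    positivity
  · refine (phi_step hF hK k x e).trans ?_
    have hb : (2 : ℝ) ^ (-(C0 / κ)) * 2 ^ k ≤ 2 * (1 + nm x) := by
      by_cases h2 : φ x ≤ κ * k
      · have h3 : κ * k < φ (x + vec e) := by
          by_contra h4
          exact h ⟨h2, not_lt.1 h4⟩
        have h5 := far_of_large hK h3
        have h6 := nm_add_vec_le x e
        linarith
      · have h5 := far_of_large hK (not_le.1 h2)
        linarith
    rw [div_div, div_le_div_iff₀ (by linarith) (by positivity)]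
    nlinarith

theorem GRK (hSMS : SMS_stmt) (hFFP : FFP_stmt) : GRK_stmt := by
  intro a φ κ C0 hK C b k1 hS
  obtain ⟨Cs, hCs1, hcard, -, hsum, -⟩ := hSMS b hS.bone
  have hC0 : 0 ≤ C0 := zero_le_one.trans hK.cone
  have hCs0 : 0 ≤ Cs := zero_le_one.trans hCs1
  set M : ℝ := 2 * C0 / (2 : ℝ) ^ (-(C0 / κ)) with hM
  have hM0 : 0 ≤ M := by
    have : (0 : ℝ) < (2 : ℝ) ^ (-(C0 / κ)) := Real.rpow_pos_of_pos (by norm_num) _
    positivity
  refine ⟨C0 + (C0 * Cs + M * Cs) + 8 * C0 * b, fun k hk x e => ⟨?_, ?_, ?_⟩⟩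
  · have hn := nm_nonneg x
    refine (phi_step hFFP hK k x e).trans ?_
    have : 0 ≤ (C0 * Cs + M * Cs) + 8 * C0 * b := by positivity
    gcongr
    linarith
  · have h1 : ∀ z ∈ Bx b k, |(φ (x + vec e - z) - Phi κ φ k (x + vec e)) -
        (φ (x - z) - Phi κ φ k x)| ≤ C0 * (1 / (1 + nm (z - x))) + M / 2 ^ k := by
      intro z _
      have e1 : (φ (x + vec e - z) - Phi κ φ k (x + vec e)) - (φ (x - z) - Phi κ φ k x) =
          (φ (x - z + vec e) - φ (x - z)) - (Phi κ φ k (x + vec e) - Phi κ φ k x) := by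
        rw [show x + vec e - z = x - z + vec e by abel]
        ring
      rw [e1]
      refine (abs_sub _ _).trans (add_le_add ?_ (phi_step2 hFFP hK k x e))
      refine (hK.d1 (x - z) e).trans (le_of_eq ?_)
      rw [nm_sub_comm' x z]
      ring
    refine (Finset.sum_le_sum h1).trans ?_
    rw [Finset.sum_add_distrib, ← Finset.mul_sum, Finset.sum_const, nsmul_eq_mul]
    have h2 := mul_le_mul_of_nonneg_left (hsum k x) hC0
    have h3 : ((Bx b k).card : ℝ) * (M / 2 ^ k) ≤ M * Cs * 2 ^ k := by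
      have h4 := mul_le_mul_of_nonneg_right (hcard k) (show 0 ≤ M / 2 ^ k by positivity)
      refine h4.trans (le_of_eq ?_)
      have : (4 : ℝ) ^ k = 2 ^ k * 2 ^ k := by
        rw [← mul_pow]; norm_num
      rw [this]
      field_simp
    have h5 : 0 ≤ (C0 + 8 * C0 * b) * 2 ^ k := by positivity
    have h6 : (C0 + (C0 * Cs + M * Cs) + 8 * C0 * b) * 2 ^ k =
        C0 * (Cs * 2 ^ k) + M * Cs * 2 ^ k + (C0 + 8 * C0 * b) * 2 ^ k := by ring
    rw [h6]
    linarith
  · intro z hz hx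
    obtain ⟨hx1, hx2⟩ := notMem_of_big hS.bone hx e
    rw [hS.out k hk _ hx1, hS.out k hk _ hx2]
    have hn := nm_nonneg x
    have hR := half_nm hx
    have hR0 : (0 : ℝ) ≤ (b : ℝ) * 2 ^ k := by positivity
    have hzl : ∀ l, ((z l).natAbs : ℝ) ≤ b * 2 ^ k := by
      intro l
      unfold Bx at hz
      rw [mem_box] at hz
      have := hz l
      rw [Nat.cast_natAbs]
      exact_mod_cast this
    have hstep : ∀ (u : Site 2) (g : Dir 2), (∀ i, |((u i - x i : ℤ) : ℝ)| ≤ b * 2 ^ k) →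
        |(fun u => φ (u + vec e) - φ u) (u + vec g) - (fun u => φ (u + vec e) - φ u) u| ≤
          4 * C0 / (1 + nm x) ^ 2 := by
      intro u g hu
      have h1 := nm_le_of_close hu
      have hnu := nm_nonneg u
      have h2 : (1 + nm x) / 2 ≤ 1 + nm u := by linarith
      have h3 := hK.d2 u g e
      have e1 : (fun u => φ (u + vec e) - φ u) (u + vec g) - (fun u => φ (u + vec e) - φ u) u =
          φ (u + vec g + vec e) - φ (u + vec g) - φ (u + vec e) + φ u := by
        beta_reduce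
        ring
      rw [e1]
      refine h3.trans ?_
      have h4 : ((1 + nm x) / 2) ^ 2 ≤ (1 + nm u) ^ 2 := pow_le_pow_left₀ (by linarith) h2 2
      rw [div_pow] at h4
      rw [div_le_div_iff₀ (by positivity) (by positivity)]
      nlinarith
    have hw := walk_box (H := fun u => φ (u + vec e) - φ u) (by positivity) hR0 x z hzl hstep
    beta_reduce at hw
    have e1 : (φ (x + vec e - z) - φ (x + vec e)) - (φ (x - z) - φ x) =
        (φ (x - z + vec e) - φ (x - z)) - (φ (x + vec e) - φ x) := by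
      rw [show x + vec e - z = x - z + vec e by abel]
      ring
    rw [e1]
    refine hw.trans ?_
    have e2 : 2 * (4 * C0 / (1 + nm x) ^ 2) * (b * 2 ^ k) =
        (8 * C0 * b) * 2 ^ k / (1 + nm x) ^ 2 := by ring
    rw [e2]
    have h5 : 0 ≤ C0 + (C0 * Cs + M * Cs) := by positivity
    gcongr
    linarith

end Pool.Agent.Helper56.MKV
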